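import Pool.Agent.helper28.EG.SpecP

/-!
# p2x:PFL (MP_70a088_an, P2, block EG): the Julia set is not dense on large scales near a parabolic point (helper11)
-/

set_option autoImplicit false

open Complex Metric Set Filter Topology MeasureTheory
open WP (it)

noncomputable section

namespace EG

/-- PIT gives two sided bounds for the displacement. -/
theorem PFL_disp {G z : ℂ} {α p : ℂ} {ν : ℕ} {t : ℝ} (ht : 0 ≤ t)
    (h : ‖G - z - (t : ℂ) * (α * (z - p) ^ (ν + 1))‖ ≤ 1 / 10 * (t * (‖α‖ * ‖z - p‖ ^ (ν + 1)))) :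
    ‖G - z‖ ≤ 11 / 10 * (t * (‖α‖ * ‖z - p‖ ^ (ν + 1))) ∧ 9 / 10 * (t * (‖α‖ * ‖z - p‖ ^ (ν + 1))) ≤ ‖G - z‖ := by
  have h1 : ‖(t : ℂ) * (α * (z - p) ^ (ν + 1))‖ = t * (‖α‖ * ‖z - p‖ ^ (ν + 1)) := by
    rw [norm_mul, norm_mul, norm_pow, Complex.norm_real, Real.norm_eq_abs, abs_of_nonneg ht]
  have h2 : ‖G - z‖ ≤ ‖G - z - (t : ℂ) * (α * (z - p) ^ (ν + 1))‖ + ‖(t : ℂ) * (α * (z - p) ^ (ν + 1))‖ := by
    have := norm_add_le (G - z - (t : ℂ) * (α * (z - p) ^ (ν + 1))) ((t : ℂ) * (α * (z - p) ^ (ν + 1)))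
    rwa [sub_add_cancel] at this
  have h3 : ‖(t : ℂ) * (α * (z - p) ^ (ν + 1))‖ ≤ ‖G - z‖ + ‖G - z - (t : ℂ) * (α * (z - p) ^ (ν + 1))‖ := by
    have h4 := norm_sub_le (G - z) (G - z - (t : ℂ) * (α * (z - p) ^ (ν + 1)))
    rwa [sub_sub_cancel] at h4
  rw [h1] at h2 h3
  constructor <;> linarith

theorem PFL (hPIT : PIT_stmt) (hPSH : PSH_stmt) (hPJA : PJA_stmt) : PFL_stmt := by
  intro f a p ν h hdeg hPA hPar
  obtain ⟨ha, hap, -⟩ := hPA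
  obtain ⟨δ₀, hδ₀, -, hpit⟩ := hPIT (it f a) p ν h hPar
  obtain ⟨κ₁, L, r, hκ₁, hL, hr, hpsh⟩ := hPSH (it f a) p ν h hPar
  have hν : 1 ≤ ν := hPar.nu
  set Q : ℝ := (11 / 10 : ℝ) ^ (ν + 1) with hQ
  have hQpos : 0 < Q := by positivity
  have hQ1 : 1 ≤ Q := one_le_pow₀ (by norm_num)
  refine ⟨min (δ₀ / Q) ((r / 2) ^ ν), min (1 / 100) (κ₁ / 4), 1 / (8 * L * Q), by positivity, by positivity, by positivity, ?_⟩
  intro l y c hl hyp hly hc hcy hly2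
  have hd : 0 < ‖y - p‖ := norm_pos_iff.2 (sub_ne_zero.2 hyp)
  have hlR : (1 : ℝ) ≤ l := by exact_mod_cast hl
  by_cases hJ : Disjoint (ball y (c / 100)) (PM.JJ f)
  · refine ⟨y, ball_subset_ball ?_, hJ.mono_left (ball_subset_ball ?_)⟩
    · have := min_le_left (1 / 100 : ℝ) (κ₁ / 4)
      nlinarith
    · have := min_le_left (1 / 100 : ℝ) (κ₁ / 4)
      nlinarith
  · rw [Set.not_disjoint_iff] at hJ
    obtain ⟨y₁, hy₁b, hy₁J⟩ := hJ
    rw [mem_ball, dist_eq_norm] at hy₁b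
    have hd1u : ‖y₁ - p‖ ≤ 51 / 50 * ‖y - p‖ := by
      have : ‖y₁ - p‖ ≤ ‖y₁ - y‖ + ‖y - p‖ := norm_sub_le_norm_sub_add_norm_sub _ _ _
      linarith
    have hd1l : 49 / 50 * ‖y - p‖ ≤ ‖y₁ - p‖ := by
      have : ‖y - p‖ ≤ ‖y - y₁‖ + ‖y₁ - p‖ := norm_sub_le_norm_sub_add_norm_sub _ _ _
      rw [norm_sub_rev y y₁] at this
      linarith
    have hd1 : 0 < ‖y₁ - p‖ := by linarith
    have hy₁p : y₁ ≠ p := sub_ne_zero.1 (norm_pos_iff.1 hd1)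
    -- powers
    have hpν : ‖y - p‖ ^ ν ≤ l * ‖y - p‖ ^ ν := le_mul_of_one_le_left (by positivity) hlR
    have hdr : ‖y - p‖ ≤ r / 2 := by
      have h1 : ‖y - p‖ ^ ν ≤ (r / 2) ^ ν := hpν.trans (hly.trans (min_le_right _ _))
      exact le_of_pow_le_pow_left₀ (by omega) (by positivity) h1
    have hd1r : ‖y₁ - p‖ < r := by linarith
    have hlδ : l * ‖y - p‖ ^ ν ≤ δ₀ := by
      refine hly.trans ((min_le_left _ _).trans ?_)
      rw [div_le_iff₀ hQpos]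
      nlinarith
    have hd1δ : ((1 : ℕ) : ℝ) * ‖y₁ - p‖ ^ ν ≤ δ₀ := by
      rw [Nat.cast_one, one_mul]
      have h1 : ‖y₁ - p‖ ^ ν ≤ (11 / 10 * ‖y - p‖) ^ ν := pow_le_pow_left₀ hd1.le (by linarith) ν
      have h2 : (11 / 10 : ℝ) ^ ν ≤ Q := pow_le_pow_right₀ (by norm_num) (by omega)
      have h3 : l * ‖y - p‖ ^ ν ≤ δ₀ / Q := hly.trans (min_le_left _ _)
      have h4 : ‖y - p‖ ^ ν ≤ δ₀ / Q := hpν.trans h3
      calc ‖y₁ - p‖ ^ ν ≤ (11 / 10 * ‖y - p‖) ^ ν := h1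
        _ = (11 / 10 : ℝ) ^ ν * ‖y - p‖ ^ ν := mul_pow _ _ _
        _ ≤ Q * (δ₀ / Q) := mul_le_mul h2 h4 (by positivity) hQpos.le
        _ = δ₀ := by field_simp
    -- displacements
    have hy2 := PFL_disp (t := (l : ℝ)) (by positivity) (by exact_mod_cast hpit l y hlδ)
    have hz2 := PFL_disp (t := ((1 : ℕ) : ℝ)) (by positivity) (by exact_mod_cast hpit 1 y₁ hd1δ)
    rw [Function.iterate_one, Nat.cast_one, one_mul] at hz2
    have hpow : ‖y₁ - p‖ ^ (ν + 1) ≤ Q * ‖y - p‖ ^ (ν + 1) := by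
      rw [hQ, ← mul_pow]
      exact pow_le_pow_left₀ hd1.le (by linarith) _
    have hα : 0 ≤ ‖h p‖ := norm_nonneg _
    have hbase : ‖h p‖ * ‖y - p‖ ^ (ν + 1) ≤ 10 / 9 * (1 / (8 * L * Q) * c) := by
      have h1 : ‖h p‖ * ‖y - p‖ ^ (ν + 1) ≤ l * (‖h p‖ * ‖y - p‖ ^ (ν + 1)) := le_mul_of_one_le_left (by positivity) hlR
      linarith [hy2.2]
    have hdisp : L * ‖it f a y₁ - y₁‖ ≤ c / 4 := by
      have h1 : ‖it f a y₁ - y₁‖ ≤ 11 / 10 * (Q * (10 / 9 * (1 / (8 * L * Q) * c))) := by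
        calc ‖it f a y₁ - y₁‖ ≤ 11 / 10 * (‖h p‖ * ‖y₁ - p‖ ^ (ν + 1)) := hz2.1
          _ ≤ 11 / 10 * (‖h p‖ * (Q * ‖y - p‖ ^ (ν + 1))) := by gcongr
          _ = 11 / 10 * (Q * (‖h p‖ * ‖y - p‖ ^ (ν + 1))) := by ring
          _ ≤ _ := by gcongr
      have h2 : 11 / 10 * (Q * (10 / 9 * (1 / (8 * L * Q) * c))) = 11 / 72 * c / L := by
        field_simp
        ring
      rw [h2] at h1
      calc L * ‖it f a y₁ - y₁‖ ≤ L * (11 / 72 * c / L) := mul_le_mul_of_nonneg_left h1 hL.le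
        _ = 11 / 72 * c := by field_simp
        _ ≤ c / 4 := by linarith
    have hnot : y₁ ∉ interior {z : ℂ | Tendsto (fun m => (it f a)^[m] z) atTop (𝓝 p)} := by
      intro hin
      have hdis := hPJA f a p (interior {z : ℂ | Tendsto (fun m => (it f a)^[m] z) atTop (𝓝 p)}) hdeg ha hap isOpen_interior
        (fun z hz => interior_subset hz)
      exact (Set.disjoint_left.1 hdis) hin hy₁J
    obtain ⟨w, hw1, hw2⟩ := hpsh y₁ (c / 4) hy₁p hd1r (by positivity) (by linarith) hdisp hnot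
    refine ⟨w, ?_, ?_⟩
    · have h1 : ball w (min (1 / 100) (κ₁ / 4) * c) ⊆ ball w (κ₁ * (c / 4)) := by
        apply ball_subset_ball
        have := min_le_right (1 / 100 : ℝ) (κ₁ / 4)
        nlinarith
      refine h1.trans (hw1.trans (ball_subset_ball' ?_))
      rw [dist_eq_norm]
      linarith
    · refine (hPJA f a p (ball w (κ₁ * (c / 4))) hdeg ha hap isOpen_ball hw2).mono_left (ball_subset_ball ?_)
      have := min_le_right (1 / 100 : ℝ) (κ₁ / 4)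
      nlinarith

end EG
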